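import Mathlib

open Finset Filter

namespace Pool.Agent.Results.MP_25bd62_pr.Theta

/-- All edges `(a,b)`, `a < b`, on the vertices `0, ..., n-1`. -/
def K (n : ℕ) : Finset (ℕ × ℕ) := (range n ×ˢ range n).filter fun p => p.1 < p.2

/-- Initial vertices (in-degree zero). -/
def ini (n : ℕ) (G : Finset (ℕ × ℕ)) : Finset ℕ := (range n).filter fun v => ∀ e ∈ G, e.2 ≠ v

/-- Terminal vertices (out-degree zero). -/
def ter (n : ℕ) (G : Finset (ℕ × ℕ)) : Finset ℕ := (range n).filter fun v => ∀ e ∈ G, e.1 ≠ v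

/-- Examine the edge `e`: delete it unless that leaves more than one initial or more than one
terminal vertex. -/
def step (n : ℕ) (G : Finset (ℕ × ℕ)) (e : ℕ × ℕ) : Finset (ℕ × ℕ) :=
  if (ini n (G.erase e)).card ≤ 1 ∧ (ter n (G.erase e)).card ≤ 1 then G.erase e else G

/-- Orderings of all the edges. -/
abbrev Ord (n : ℕ) := Fin (K n).card ≃ {e // e ∈ K n}

/-- The output graph for a given ordering of the edges. -/
def out (n : ℕ) (σ : Ord n) : Finset (ℕ × ℕ) :=
  (List.ofFn fun i => (σ i).1).foldl (step n) (K n)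

/-- The largest number of edges of a directed path. -/
noncomputable def longest (G : Finset (ℕ × ℕ)) : ℕ :=
  sSup {k | ∃ v : ℕ → ℕ, ∀ i < k, (v i, v (i + 1)) ∈ G}

/-- Expectation of the longest path under a uniformly random ordering. -/
noncomputable def EL (n : ℕ) : ℝ :=
  (∑ σ : Ord n, (longest (out n σ) : ℝ)) / Fintype.card (Ord n)

lemma mem_K {n a b : ℕ} : (a, b) ∈ K n ↔ a < b ∧ b < n := by
  simp only [K, mem_filter, mem_product, mem_range]; omega

variable {n : ℕ}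

def Inv (n : ℕ) (G : Finset (ℕ × ℕ)) : Prop :=
  G ⊆ K n ∧ (ini n G).card ≤ 1 ∧ (ter n G).card ≤ 1

lemma inv_step {G : Finset (ℕ × ℕ)} (h : Inv n G) (e : ℕ × ℕ) : Inv n (step n G e) := by
  unfold step; split_ifs with c
  · exact ⟨(erase_subset _ _).trans h.1, c⟩
  · exact h

lemma inv_K : Inv n (K n) := by
  refine ⟨Subset.rfl, card_le_one.2 fun a ha b hb => ?_, card_le_one.2 fun a ha b hb => ?_⟩
  · simp only [ini, mem_filter, mem_range] at ha hb
    have h1 : a = 0 := by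
      by_contra c; exact ha.2 (0, a) (mem_K.2 ⟨by omega, ha.1⟩) rfl
    have h2 : b = 0 := by
      by_contra c; exact hb.2 (0, b) (mem_K.2 ⟨by omega, hb.1⟩) rfl
    omega
  · simp only [ter, mem_filter, mem_range] at ha hb
    have h1 : a = n - 1 := by
      by_contra c; exact ha.2 (a, n - 1) (mem_K.2 ⟨by omega, by omega⟩) rfl
    have h2 : b = n - 1 := by
      by_contra c; exact hb.2 (b, n - 1) (mem_K.2 ⟨by omega, by omega⟩) rfl
    omega

lemma inv_fold (l : List (ℕ × ℕ)) : ∀ G, Inv n G → Inv n (l.foldl (step n) G) := by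
  induction l with
  | nil => intro G h; exact h
  | cons e l ih => intro G h; exact ih _ (inv_step h e)

lemma fold_sub (l : List (ℕ × ℕ)) : ∀ G, l.foldl (step n) G ⊆ G := by
  induction l with
  | nil => intro G; exact Subset.rfl
  | cons e l ih =>
    intro G
    refine (ih _).trans ?_
    unfold step; split_ifs
    exacts [erase_subset _ _, Subset.rfl]

lemma mem_fold (l : List (ℕ × ℕ)) : ∀ G e, e ∈ G → e ∉ l → e ∈ l.foldl (step n) G := by
  induction l with
  | nil => intro G e h _; exact h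
  | cons x l ih =>
    intro G e h hl
    simp only [List.mem_cons, not_or] at hl
    refine ih _ e ?_ hl.2
    unfold step; split_ifs
    exacts [mem_erase.2 ⟨hl.1, h⟩, h]

lemma kept {G : Finset (ℕ × ℕ)} (h : Inv n G) {e : ℕ × ℕ} (he : e ∈ step n G e) :
    (∀ x ∈ G, x.2 = e.2 → x = e) ∨ ∀ x ∈ G, x.1 = e.1 → x = e := by
  by_contra c
  push Not at c
  obtain ⟨⟨x, x1, x2, x3⟩, y, y1, y2, y3⟩ := c
  have : (ini n (G.erase e)).card ≤ 1 ∧ (ter n (G.erase e)).card ≤ 1 := by
    refine ⟨le_trans (card_le_card fun v hv => ?_) h.2.1, le_trans (card_le_card fun v hv => ?_) h.2.2⟩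
    · simp only [ini, mem_filter, mem_erase] at hv ⊢
      refine ⟨hv.1, fun z hz => ?_⟩
      by_cases d : z = e
      · rw [d, ← x2]; exact hv.2 x ⟨x3, x1⟩
      · exact hv.2 z ⟨d, hz⟩
    · simp only [ter, mem_filter, mem_erase] at hv ⊢
      refine ⟨hv.1, fun z hz => ?_⟩
      by_cases d : z = e
      · rw [d, ← y2]; exact hv.2 y ⟨y3, y1⟩
      · exact hv.2 z ⟨d, hz⟩
  rw [step, if_pos this] at he
  simp at he

/-- rank of an edge -/
def rk (σ : Ord n) (e : ℕ × ℕ) : ℕ := if h : e ∈ K n then σ.symm ⟨e, h⟩ else 0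

lemma out_max (σ : Ord n) {e : ℕ × ℕ} (he : e ∈ out n σ) :
    (∀ x ∈ K n, x.2 = e.2 → rk σ x ≤ rk σ e) ∨ ∀ x ∈ K n, x.1 = e.1 → rk σ x ≤ rk σ e := by
  have hK : e ∈ K n := fold_sub _ _ he
  set l := List.ofFn fun i => (σ i).1 with hl
  set i := σ.symm ⟨e, hK⟩
  have hi : (i : ℕ) < l.length := by simp [hl]
  have hg : l[(i : ℕ)] = e := by simp [hl, i]
  have hs : l = l.take i ++ e :: l.drop (i + 1) := by
    rw [← hg, List.getElem_cons_drop, List.take_append_drop]
  unfold out at he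
  rw [← hl, hs, List.foldl_append, List.foldl_cons] at he
  have h2 := kept (inv_fold _ _ inv_K) (fold_sub _ _ he)
  have h3 : ∀ x ∈ K n, ¬ rk σ x ≤ rk σ e → x ∈ (l.take i).foldl (step n) (K n) ∧ x ≠ e := by
    intro x hx c
    refine ⟨mem_fold _ _ x hx fun d => c ?_, fun d => c (d ▸ le_rfl)⟩
    obtain ⟨j, hj, rfl⟩ := List.getElem_of_mem d
    have hj' : j < i := by simp at hj; omega
    have hj2 : j < (K n).card := hj'.trans i.2
    have e1 : (l.take i)[j] = (σ ⟨j, hj2⟩).1 := by simp [hl]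
    simp only [e1, rk, dif_pos hK, dif_pos (σ ⟨j, hj2⟩).2, Subtype.coe_eta, Equiv.symm_apply_apply]
    exact hj'.le
  rcases h2 with h2 | h2
  · left; intro x hx e1; by_contra c; exact (h3 x hx c).2 (h2 x (h3 x hx c).1 e1)
  · right; intro x hx e1; by_contra c; exact (h3 x hx c).2 (h2 x (h3 x hx c).1 e1)

lemma rk_inj (σ : Ord n) {x y : ℕ × ℕ} (hx : x ∈ K n) (hy : y ∈ K n) (h : rk σ x = rk σ y) :
    x = y := by
  simp only [rk, dif_pos hx, dif_pos hy] at h
  exact congrArg Subtype.val (σ.symm.injective (Fin.ext h))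

lemma rk_swap (σ : Ord n) (a b : {e // e ∈ K n}) (x : ℕ × ℕ) :
    rk (σ.trans (Equiv.swap a b)) x = rk σ (Equiv.swap a.1 b.1 x) := by
  by_cases h1 : x = a.1
  · subst h1; simp [rk, a.2, b.2]
  by_cases h2 : x = b.1
  · subst h2; simp [rk, a.2, b.2]
  rw [Equiv.swap_apply_of_ne_of_ne h1 h2]
  unfold rk
  split_ifs with c
  · simp only [Equiv.symm_trans_apply, Equiv.symm_swap]
    rw [Equiv.swap_apply_of_ne_of_ne (fun d => h1 (congrArg Subtype.val d))
      (fun d => h2 (congrArg Subtype.val d))]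
  · rfl

open Classical in
lemma star (A : Ord n → Prop) (S : Finset (ℕ × ℕ)) (hS : S ⊆ K n) {e : ℕ × ℕ} (he : e ∈ S)
    (hA : ∀ σ τ, (∀ x, x ∉ S → rk σ x = rk τ x) → A σ → A τ) :
    ((univ.filter fun σ => A σ ∧ ∀ x ∈ S, rk σ x ≤ rk σ e).card : ℝ) ≤
      (univ.filter A).card / S.card := by
  rw [le_div_iff₀ (by exact_mod_cast card_pos.2 ⟨e, he⟩)]
  have h1 : ∀ y ∈ S, (univ.filter fun σ => A σ ∧ ∀ x ∈ S, rk σ x ≤ rk σ e).card ≤
      (univ.filter fun σ => A σ ∧ ∀ x ∈ S, rk σ x ≤ rk σ y).card := by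
    intro y hy
    refine card_le_card_of_injOn (fun σ => σ.trans (Equiv.swap ⟨e, hS he⟩ ⟨y, hS hy⟩)) ?_ ?_
    · intro σ hσ
      simp only [coe_filter, mem_univ, true_and, Set.mem_ofPred_eq] at hσ ⊢
      refine ⟨hA σ _ (fun x hx => ?_) hσ.1, fun x hx => ?_⟩
      · rw [rk_swap, Equiv.swap_apply_of_ne_of_ne (fun d : x = e => hx (d ▸ he)) (fun d : x = y => hx (d ▸ hy))]
      · rw [rk_swap, rk_swap, Equiv.swap_apply_right]
        refine hσ.2 _ ?_
        rw [Equiv.swap_apply_def]; split_ifs <;> assumption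
    · intro σ _ τ _ h
      ext i : 1
      exact (Equiv.swap _ _).injective (congrArg (fun f => f i) h)
  have h2 : ∑ y ∈ S, (univ.filter fun σ => A σ ∧ ∀ x ∈ S, rk σ x ≤ rk σ y).card ≤
      (univ.filter A).card := by
    rw [← card_biUnion]
    · exact card_le_card (biUnion_subset.2 fun y _ σ hσ => by
        simp only [mem_filter, mem_univ, true_and] at hσ ⊢; exact hσ.1)
    · intro x hx y hy hxy
      refine disjoint_filter.2 fun σ _ a b => hxy ?_
      exact rk_inj σ (hS hx) (hS hy) (le_antisymm (b.2 x hx) (a.2 y hy))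
  have h3 := card_nsmul_le_sum S _ _ h1
  rw [smul_eq_mul, mul_comm] at h3
  exact_mod_cast h3.trans h2

/-- relaxed paths in the lower half, seen through the relabelling `φ` of the edges -/
def P (φ : ℕ × ℕ → ℕ × ℕ) (T : ℕ → Prop) (σ : Ord n) : ℕ → ℕ → Prop
  | 0, v => T v
  | j + 1, v => ∃ u < v, P φ T σ j u ∧ ((∀ a < v, rk σ (φ (a, v)) ≤ rk σ (φ (u, v))) ∨
      ∀ c, n / 2 ≤ c → c < n → rk σ (φ (u, c)) ≤ rk σ (φ (u, v)))

lemma P_inv {φ : ℕ × ℕ → ℕ × ℕ} {T : ℕ → Prop} {σ τ : Ord n} (j : ℕ) : ∀ v,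
    (∀ a b, a < b → b < n → (b ≤ v ∨ (a < v ∧ n / 2 ≤ b)) → rk σ (φ (a, b)) = rk τ (φ (a, b))) →
    v < n / 2 → P φ T σ j v → P φ T τ j v := by
  induction j with
  | zero => intro v _ _ h; exact h
  | succ j ih =>
    rintro v h hv ⟨u, hu, h1, h2⟩
    refine ⟨u, hu, ih u (fun a b c d e => h a b c d (by omega)) (by omega) h1, ?_⟩
    rw [← h u v hu (by omega) (by omega)]
    rcases h2 with h2 | h2
    · left; intro a ha; rw [← h a v ha (by omega) (by omega)]; exact h2 a ha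
    · right; intro c c1 c2
      rw [← h u c (by omega) c2 (by omega)]; exact h2 c c1 c2

open Classical in
noncomputable def cnt (n : ℕ) (φ : ℕ × ℕ → ℕ × ℕ) (T : ℕ → Prop) (j v : ℕ) : ℝ :=
  (univ.filter fun σ : Ord n => P φ T σ j v).card

structure Rl (n : ℕ) (φ : ℕ × ℕ → ℕ × ℕ) : Prop where
  mem : ∀ a b, a < b → b < n → φ (a, b) ∈ K n
  inj : ∀ a b c d, a < b → b < n → c < d → d < n → φ (a, b) = φ (c, d) → a = c ∧ b = d

open Classical in
lemma cnt_rec {φ : ℕ × ℕ → ℕ × ℕ} (hφ : Rl n φ) (T : ℕ → Prop) (j : ℕ) {v : ℕ} (hv : v < n / 2) :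
    cnt n φ T (j + 1) v ≤ 2 / v * ∑ u ∈ range v, cnt n φ T j u := by
  set S1 := (range v).image fun a => φ (a, v)
  set S2 := fun u => insert (φ (u, v)) ((Ico (n / 2) n).image fun c => φ (u, c))
  have c1 : S1.card = v := by
    rw [card_image_of_injOn, card_range]
    intro a ha b hb h
    simp only [coe_range, Set.mem_Iio] at ha hb
    exact (hφ.inj a v b v ha (by omega) hb (by omega) h).1
  have c2 : ∀ u < v, v ≤ (S2 u).card := fun u hu => by
    refine le_trans ?_ (card_le_card (subset_insert _ _))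
    rw [card_image_of_injOn, Nat.card_Ico]
    · omega
    intro a ha b hb h
    simp only [coe_Ico, Set.mem_Ico] at ha hb
    exact (hφ.inj u a u b (by omega) ha.2 (by omega) hb.2 h).2
  have h1 : cnt n φ T (j + 1) v ≤ ∑ u ∈ range v,
      (((univ.filter fun σ : Ord n => P φ T σ j u ∧ ∀ x ∈ S1, rk σ x ≤ rk σ (φ (u, v))).card : ℝ) +
        (univ.filter fun σ : Ord n => P φ T σ j u ∧ ∀ x ∈ S2 u, rk σ x ≤ rk σ (φ (u, v))).card) := by
    unfold cnt
    norm_cast
    refine le_trans (card_le_card fun σ hσ => ?_)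
      (card_biUnion_le.trans (sum_le_sum fun u _ => card_union_le _ _))
    simp only [mem_filter, mem_univ, true_and] at hσ
    obtain ⟨u, hu, h1, h2⟩ := hσ
    simp only [mem_biUnion, mem_range, mem_union, mem_filter, mem_univ, true_and]
    refine ⟨u, hu, h2.imp (fun h => ⟨h1, fun x hx => ?_⟩) fun h => ⟨h1, fun x hx => ?_⟩⟩
    · obtain ⟨a, ha, rfl⟩ := mem_image.1 hx
      exact h a (mem_range.1 ha)
    · rcases mem_insert.1 hx with rfl | hx
      · exact le_rfl
      · obtain ⟨c, hc, rfl⟩ := mem_image.1 hx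
        exact h c (mem_Ico.1 hc).1 (mem_Ico.1 hc).2
  refine h1.trans ?_
  rw [mul_sum]
  refine sum_le_sum fun u hu => ?_
  have hu := mem_range.1 hu
  have a1 := star (fun σ : Ord n => P φ T σ j u) S1 (fun x hx => by
      obtain ⟨a, ha, rfl⟩ := mem_image.1 hx
      exact hφ.mem a v (mem_range.1 ha) (by omega))
    (mem_image.2 ⟨u, mem_range.2 hu, rfl⟩) (fun σ τ h => P_inv j u (fun a b c d e => h _ fun hx => by
      obtain ⟨a', ha, e1⟩ := mem_image.1 hx
      have := hφ.inj a' v a b (mem_range.1 ha) (by omega) c d e1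
      omega) (by omega))
  have a2 := star (fun σ : Ord n => P φ T σ j u) (S2 u) (fun x hx => by
      rcases mem_insert.1 hx with rfl | hx
      · exact hφ.mem u v hu (by omega)
      · obtain ⟨c, hc, rfl⟩ := mem_image.1 hx
        exact hφ.mem u c (by have := mem_Ico.1 hc; omega) (mem_Ico.1 hc).2)
    (mem_insert_self _ _) (fun σ τ h => P_inv j u (fun a b c d e => h _ fun hx => by
      rcases mem_insert.1 hx with e1 | hx
      · have := hφ.inj a b u v c d hu (by omega) e1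
        omega
      · obtain ⟨c', hc, e1⟩ := mem_image.1 hx
        have hc := mem_Ico.1 hc
        have := hφ.inj u c' a b (by omega) hc.2 c d e1
        omega) (by omega))
  rw [c1] at a1
  have hv0 : (0 : ℝ) < v := by exact_mod_cast (show 0 < v by omega)
  have a3 : cnt n φ T j u / (S2 u).card ≤ cnt n φ T j u / v :=
    div_le_div_of_nonneg_left (Nat.cast_nonneg _) hv0 (by exact_mod_cast c2 u hu)
  have : 2 / v * cnt n φ T j u = cnt n φ T j u / v + cnt n φ T j u / v := by ring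
  rw [this]
  exact add_le_add a1 (a2.trans a3)

lemma cnt_le (φ : ℕ × ℕ → ℕ × ℕ) (T : ℕ → Prop) (j v : ℕ) :
    cnt n φ T j v ≤ Fintype.card (Ord n) := by
  unfold cnt; exact_mod_cast card_le_univ _

lemma cnt_up {φ : ℕ × ℕ → ℕ × ℕ} (hφ : Rl n φ) (T : ℕ → Prop) (j : ℕ) : ∀ v < n / 2,
    cnt n φ T j v ≤ Fintype.card (Ord n) * (1 / 2) ^ j * (v + 1) ^ 7 := by
  have hs : ∀ v : ℕ, ∑ u ∈ range v, ((u : ℝ) + 1) ^ 7 ≤ ((v : ℝ) + 1) ^ 8 / 8 := by
    intro v
    induction v with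
    | zero => norm_num
    | succ v ih =>
      rw [sum_range_succ]; push_cast
      have : 0 ≤ (v : ℝ) + 1 := by positivity
      generalize (v : ℝ) + 1 = x at *
      have e : (x + 1) ^ 8 = x ^ 8 + 8 * x ^ 7 + (28 * x ^ 6 + 56 * x ^ 5 + 70 * x ^ 4 +
        56 * x ^ 3 + 28 * x ^ 2 + 8 * x + 1) := by ring
      have : 0 ≤ 28 * x ^ 6 + 56 * x ^ 5 + 70 * x ^ 4 + 56 * x ^ 3 + 28 * x ^ 2 + 8 * x + 1 := by
        positivity
      linarith
  induction j with
  | zero =>
    intro v _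
    have : (1 : ℝ) ≤ (v + 1) ^ 7 := one_le_pow₀ (by simp)
    have h0 : (0 : ℝ) ≤ Fintype.card (Ord n) := Nat.cast_nonneg _
    have := cnt_le (n := n) φ T 0 v
    simp only [pow_zero, mul_one]; nlinarith
  | succ j ih =>
    intro v hv
    refine (cnt_rec hφ T j hv).trans ?_
    rcases Nat.eq_zero_or_pos v with rfl | h0
    · simp
    have h1 : (1 : ℝ) ≤ v := by exact_mod_cast h0
    have h2 : ∑ u ∈ range v, cnt n φ T j u ≤
        Fintype.card (Ord n) * (1 / 2) ^ j * ((v + 1) ^ 8 / 8) := by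
      refine (sum_le_sum fun u hu => ih u (by have := mem_range.1 hu; omega)).trans ?_
      rw [← mul_sum]; exact mul_le_mul_of_nonneg_left (hs v) (by positivity)
    refine (mul_le_mul_of_nonneg_left h2 (by positivity)).trans ?_
    have h3 : 2 / (v : ℝ) * ((v + 1) ^ 8 / 8) ≤ 1 / 2 * (v + 1) ^ 7 := by
      rw [div_mul_eq_mul_div, div_le_iff₀ (by linarith), pow_succ _ 7]
      have : (0 : ℝ) ≤ (v + 1) ^ 7 := by positivity
      nlinarith
    calc _ = Fintype.card (Ord n) * (1 / 2) ^ j * (2 / (v : ℝ) * ((v + 1) ^ 8 / 8)) := by ring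
      _ ≤ Fintype.card (Ord n) * (1 / 2) ^ j * (1 / 2 * (v + 1) ^ 7) :=
        mul_le_mul_of_nonneg_left h3 (by positivity)
      _ = _ := by ring

lemma cnt_low {φ : ℕ × ℕ → ℕ × ℕ} (hφ : Rl n φ) (j : ℕ) : ∀ v < n / 2,
    cnt n φ (· = 0) j v ≤ Fintype.card (Ord n) * 8 ^ j / √(v + 1) := by
  have hs : ∀ v : ℕ, ∑ u ∈ range v, 1 / √((u : ℝ) + 1) ≤ 2 * √v := by
    intro v
    induction v with
    | zero => simp
    | succ v ih =>
      rw [sum_range_succ]; push_cast
      have a : 0 < √((v : ℝ) + 1) := by positivity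
      have b := Real.sq_sqrt (show (0 : ℝ) ≤ v + 1 by positivity)
      have c := Real.sq_sqrt (show (0 : ℝ) ≤ v by positivity)
      have : 1 / √((v : ℝ) + 1) ≤ 2 * √(v + 1) - 2 * √v := by
        rw [div_le_iff₀ a]; nlinarith [sq_nonneg (√((v : ℝ) + 1) - √v)]
      linarith
  induction j with
  | zero =>
    intro v _
    rcases Nat.eq_zero_or_pos v with rfl | h0
    · simpa using cnt_le (n := n) φ (· = 0) 0 0
    · have : cnt n φ (· = 0) 0 v = 0 := by simp [cnt, P, h0.ne']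
      rw [this]; positivity
  | succ j ih =>
    intro v hv
    refine (cnt_rec hφ _ j hv).trans ?_
    rcases Nat.eq_zero_or_pos v with rfl | h0
    · simp
    have h1 : (1 : ℝ) ≤ v := by exact_mod_cast h0
    have h2 : ∑ u ∈ range v, cnt n φ (· = 0) j u ≤ Fintype.card (Ord n) * 8 ^ j * (2 * √v) := by
      refine (sum_le_sum fun u hu => ih u (by have := mem_range.1 hu; omega)).trans ?_
      simp only [div_eq_mul_one_div (_ * _ : ℝ)]
      rw [← mul_sum]; exact mul_le_mul_of_nonneg_left (hs v) (by positivity)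
    refine (mul_le_mul_of_nonneg_left h2 (by positivity)).trans ?_
    have h3 : 2 / (v : ℝ) * (2 * √v) ≤ 8 / √(v + 1) := by
      rw [div_mul_eq_mul_div, div_le_div_iff₀ (by linarith) (by positivity)]
      have b := Real.sq_sqrt (show (0 : ℝ) ≤ v + 1 by positivity)
      have c := Real.sq_sqrt (show (0 : ℝ) ≤ v by positivity)
      nlinarith [sq_nonneg (√((v : ℝ) + 1) - √v)]
    calc _ = Fintype.card (Ord n) * 8 ^ j * (2 / (v : ℝ) * (2 * √v)) := by ring
      _ ≤ Fintype.card (Ord n) * 8 ^ j * (8 / √(v + 1)) :=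
        mul_le_mul_of_nonneg_left h3 (by positivity)
      _ = _ := by ring

def rf (n : ℕ) (e : ℕ × ℕ) : ℕ × ℕ := (n - 1 - e.2, n - 1 - e.1)

lemma rl_id : Rl n id := ⟨fun _ _ a b => mem_K.2 ⟨a, b⟩, fun _ _ _ _ _ _ _ _ h => Prod.ext_iff.1 h⟩
lemma rl_rf : Rl n (rf n) := ⟨fun a b c d => mem_K.2 ⟨by simp; omega, by simp; omega⟩,
  fun a b c d _ _ _ _ h => by simp only [rf, Prod.mk.injEq] at h; omega⟩

lemma path_id (σ : Ord n) (T : ℕ → Prop) (v : ℕ → ℕ) (h0 : T (v 0)) (j : ℕ)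
    (h : ∀ i < j, (v i, v (i + 1)) ∈ out n σ) (hj : v j < n / 2) : P id T σ j (v j) := by
  induction j with
  | zero => exact h0
  | succ j ih =>
    have k := mem_K.1 (fold_sub _ _ (h j (by omega)))
    refine ⟨v j, k.1, ih (fun i hi => h i (by omega)) (by omega), ?_⟩
    refine (out_max σ (h j (by omega))).imp (fun c a ha => ?_) fun c a h1 h2 => ?_
    · exact c _ (mem_K.2 ⟨ha, k.2⟩) rfl
    · exact c _ (mem_K.2 ⟨by omega, h2⟩) rfl

lemma path_rf (σ : Ord n) (v : ℕ → ℕ) (j : ℕ)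
    (h : ∀ i < j, (v (i + 1), v i) ∈ out n σ) (hj : n - 1 - v j < n / 2) :
    P (rf n) (fun _ => True) σ j (n - 1 - v j) := by
  induction j with
  | zero => trivial
  | succ j ih =>
    have k := mem_K.1 (fold_sub _ _ (h j (by omega)))
    refine ⟨n - 1 - v j, by omega, ih (fun i hi => h i (by omega)) (by omega), ?_⟩
    have e : rf n (n - 1 - v j, n - 1 - v (j + 1)) = (v (j + 1), v j) := by
      simp only [rf, Prod.mk.injEq]; omega
    rw [e]
    refine (out_max σ (h j (by omega))).symm.imp (fun c a ha => ?_) fun c a h1 h2 => ?_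
    · exact c _ (rl_rf.mem _ _ ha (by omega)) (by simp only [rf]; omega)
    · exact c _ (rl_rf.mem _ _ (by omega) h2) (by simp only [rf]; omega)

lemma path_mono {G : Finset (ℕ × ℕ)} (hG : G ⊆ K n) {v : ℕ → ℕ} {k : ℕ}
    (h : ∀ i < k, (v i, v (i + 1)) ∈ G) (i d : ℕ) (hd : i + d ≤ k) : v i + d ≤ v (i + d) := by
  induction d with
  | zero => simp
  | succ d ih =>
    have := (mem_K.1 (hG (h (i + d) (by omega)))).1
    have := ih (by omega)
    rw [← add_assoc i]; omega

lemma bdd {G : Finset (ℕ × ℕ)} (hG : G ⊆ K n) {k : ℕ}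
    (h : k ∈ {k | ∃ v : ℕ → ℕ, ∀ i < k, (v i, v (i + 1)) ∈ G}) : k ≤ n := by
  obtain ⟨v, hv⟩ := h
  rcases k with _ | k
  · omega
  have := path_mono hG hv 0 (k + 1) (by omega)
  have := (mem_K.1 (hG (hv k (by omega)))).2
  simp only [zero_add] at *; omega

lemma longest_mem {G : Finset (ℕ × ℕ)} (hG : G ⊆ K n) :
    longest G ∈ {k | ∃ v : ℕ → ℕ, ∀ i < k, (v i, v (i + 1)) ∈ G} :=
  Nat.sSup_mem ⟨0, fun _ => 0, by simp⟩ ⟨n, fun _ h => bdd hG h⟩

lemma back (σ : Ord n) (w : ℕ) (hw : w < n) :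
    ∃ j, ∃ v : ℕ → ℕ, v 0 = 0 ∧ v j = w ∧ ∀ i < j, (v i, v (i + 1)) ∈ out n σ := by
  induction w using Nat.strong_induction_on with
  | _ w ih =>
    rcases Nat.eq_zero_or_pos w with rfl | h0
    · exact ⟨0, fun _ => 0, rfl, rfl, by simp⟩
    have hi : Inv n (out n σ) := inv_fold _ _ inv_K
    obtain ⟨⟨u, w'⟩, he, rfl⟩ : ∃ e ∈ out n σ, e.2 = w := by
      by_contra c
      push Not at c
      have := card_le_one.1 hi.2.1 w (mem_filter.2 ⟨mem_range.2 hw, c⟩) 0
        (mem_filter.2 ⟨mem_range.2 (by omega), fun e he => by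
          have := (mem_K (a := e.1) (b := e.2)).1 (hi.1 he); omega⟩)
      omega
    have k := mem_K.1 (hi.1 he)
    obtain ⟨j, v, h1, h2, h3⟩ := ih u k.1 (by omega)
    refine ⟨j + 1, fun i => if i ≤ j then v i else w', by simpa using h1, by simp, fun i hi => ?_⟩
    rcases Nat.lt_succ_iff_lt_or_eq.1 hi with c | rfl
    · simp only [if_pos c.le, if_pos (show i + 1 ≤ j from c)]; exact h3 i c
    · simp only [le_refl, if_true, if_neg (Nat.not_succ_le_self i), h2]; exact he

instance : Nonempty (Ord n) := ⟨(K n).equivFin.symm⟩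

open Classical in
lemma EL_up (J : ℕ) (hJ : (n : ℝ) ^ 9 ≤ 2 ^ J) : EL n ≤ 2 * J + 4 := by
  have hN : (0 : ℝ) < Fintype.card (Ord n) := by exact_mod_cast Fintype.card_pos
  have h1 : ∀ σ : Ord n, (longest (out n σ) : ℝ) ≤ (2 * J + 2) + n * ∑ w ∈ range (n / 2),
      ((if P id (fun _ => True) σ J w then (1 : ℝ) else 0) +
        if P (rf n) (fun _ => True) σ J w then (1 : ℝ) else 0) := by
    intro σ
    have hG : out n σ ⊆ K n := fold_sub _ _
    have nn : ∀ w, (0 : ℝ) ≤ (if P id (fun _ => True) σ J w then (1 : ℝ) else 0) +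
        if P (rf n) (fun _ => True) σ J w then (1 : ℝ) else 0 := fun w => by positivity
    rcases le_or_gt (longest (out n σ)) (2 * J + 2) with c | c
    · have : (longest (out n σ) : ℝ) ≤ 2 * J + 2 := by exact_mod_cast c
      have := mul_nonneg (Nat.cast_nonneg (α := ℝ) n) (sum_nonneg (s := range (n / 2)) fun w _ => nn w)
      linarith
    have h2 : (longest (out n σ) : ℝ) ≤ n := by exact_mod_cast bdd hG (longest_mem hG)
    obtain ⟨v, hv⟩ := longest_mem hG
    set k := longest (out n σ)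
    obtain ⟨w, hw, h3⟩ : ∃ w ∈ range (n / 2),
        P id (fun _ => True) σ J w ∨ P (rf n) (fun _ => True) σ J w := by
      rcases lt_or_ge (v J) (n / 2) with d | d
      · exact ⟨_, mem_range.2 d, Or.inl (path_id σ _ v trivial J (fun i hi => hv i (by omega)) d)⟩
      · have e1 := path_mono hG hv J (k - J - J) (by omega)
        have e2 : J + (k - J - J) = k - J := by omega
        rw [e2] at e1
        have e3 : n - 1 - v (k - J) < n / 2 := by
          have := bdd hG (longest_mem hG); omega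
        refine ⟨_, mem_range.2 e3, Or.inr (path_rf σ (fun i => v (k - i)) J (fun i hi => ?_) e3)⟩
        have := hv (k - (i + 1)) (by omega)
        rwa [show k - (i + 1) + 1 = k - i by omega] at this
    have h4 := single_le_sum (fun w _ => nn w) hw
    have h5 : (1 : ℝ) ≤ (if P id (fun _ => True) σ J w then (1 : ℝ) else 0) +
        if P (rf n) (fun _ => True) σ J w then (1 : ℝ) else 0 := by
      rcases h3 with h3 | h3 <;> rw [if_pos h3] <;> split_ifs <;> norm_num
    have := mul_le_mul_of_nonneg_left (h5.trans h4) (Nat.cast_nonneg (α := ℝ) n)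
    have : (0 : ℝ) ≤ J := Nat.cast_nonneg _
    linarith
  rw [EL, div_le_iff₀ hN]
  refine (sum_le_sum fun σ _ => h1 σ).trans ?_
  rw [sum_add_distrib, ← mul_sum, sum_comm, sum_const, card_univ, nsmul_eq_mul]
  have h6 : ∀ w ∈ range (n / 2), ∑ σ : Ord n,
      ((if P id (fun _ => True) σ J w then (1 : ℝ) else 0) +
        if P (rf n) (fun _ => True) σ J w then (1 : ℝ) else 0) ≤
      2 * (Fintype.card (Ord n) * (1 / 2) ^ J * n ^ 7) := by
    intro w hw
    have hw := mem_range.1 hw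
    rw [sum_add_distrib, sum_boole, sum_boole]
    have a := cnt_up rl_id (fun _ => True) J w hw
    have b := cnt_up rl_rf (fun _ => True) J w hw
    have c : Fintype.card (Ord n) * (1 / 2 : ℝ) ^ J * (w + 1) ^ 7 ≤
        Fintype.card (Ord n) * (1 / 2) ^ J * n ^ 7 := by
      gcongr; exact_mod_cast (show w + 1 ≤ n by omega)
    unfold cnt at a b
    linarith
  have h7 := sum_le_card_nsmul _ _ _ h6
  rw [card_range, nsmul_eq_mul] at h7
  have h8 : ((n / 2 : ℕ) : ℝ) ≤ n := by exact_mod_cast Nat.div_le_self _ _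
  have h9 : (n : ℝ) ^ 9 * (1 / 2) ^ J ≤ 1 := by
    rw [one_div, inv_pow, ← div_eq_mul_inv, div_le_one (by positivity)]; exact hJ
  have h10 := mul_le_mul_of_nonneg_left (h7.trans (mul_le_mul_of_nonneg_right h8 (by positivity)))
    (Nat.cast_nonneg (α := ℝ) n)
  have h11 : (n : ℝ) * (n * (2 * (Fintype.card (Ord n) * (1 / 2) ^ J * n ^ 7))) =
      2 * Fintype.card (Ord n) * (n ^ 9 * (1 / 2) ^ J) := by ring
  have h12 := mul_le_mul_of_nonneg_left h9 (show (0 : ℝ) ≤ 2 * Fintype.card (Ord n) by positivity)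
  linarith

open Classical in
lemma EL_low (l : ℕ) (hn : 2 ≤ n) (hl : 2 * (16 : ℝ) ^ l ≤ √(n / 2 : ℕ)) :
    ((l : ℝ) + 1) / 2 ≤ EL n := by
  have hN : (0 : ℝ) < Fintype.card (Ord n) := by exact_mod_cast Fintype.card_pos
  have h1 : ∀ σ : Ord n, ((l : ℝ) + 1) - (l + 1) * ∑ j ∈ range (l + 1),
      (if P id (· = 0) σ j (n / 2 - 1) then (1 : ℝ) else 0) ≤ longest (out n σ) := by
    intro σ
    have hG : out n σ ⊆ K n := fold_sub _ _
    have nn : ∀ j, (0 : ℝ) ≤ (if P id (· = 0) σ j (n / 2 - 1) then (1 : ℝ) else 0) :=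
      fun w => by positivity
    obtain ⟨j, v, a, b, c⟩ := back σ (n / 2 - 1) (by omega)
    have h2 : j ≤ longest (out n σ) := le_csSup ⟨n, fun _ h => bdd hG h⟩ ⟨v, c⟩
    rcases le_or_gt j l with d | d
    · have h3 := single_le_sum (fun w _ => nn w) (mem_range.2 (Nat.lt_succ_of_le d))
      rw [if_pos (b ▸ path_id σ (· = 0) v a j c (by omega))] at h3
      have := mul_le_mul_of_nonneg_left h3 (show (0 : ℝ) ≤ l + 1 by positivity)
      have : (0 : ℝ) ≤ longest (out n σ) := Nat.cast_nonneg _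
      linarith
    · have : (l : ℝ) + 1 ≤ longest (out n σ) := by exact_mod_cast (show l + 1 ≤ _ by omega)
      have := mul_nonneg (show (0 : ℝ) ≤ l + 1 by positivity)
        (sum_nonneg (s := range (l + 1)) fun w _ => nn w)
      linarith
  rw [EL, le_div_iff₀ hN]
  refine le_trans ?_ (sum_le_sum fun σ _ => h1 σ)
  rw [sum_sub_distrib, ← mul_sum, sum_comm, sum_const, card_univ, nsmul_eq_mul]
  have e : ((n / 2 - 1 : ℕ) : ℝ) + 1 = (n / 2 : ℕ) := by
    exact_mod_cast (show n / 2 - 1 + 1 = n / 2 by omega)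
  have hs : 0 < √((n / 2 : ℕ) : ℝ) := lt_of_lt_of_le (by positivity) hl
  have h6 : ∀ j ∈ range (l + 1), ∑ σ : Ord n,
      (if P id (· = 0) σ j (n / 2 - 1) then (1 : ℝ) else 0) ≤
      Fintype.card (Ord n) * 8 ^ l / √(n / 2 : ℕ) := by
    intro j hj
    rw [sum_boole]
    have a := cnt_low (n := n) rl_id j (n / 2 - 1) (by omega)
    rw [e] at a
    refine a.trans ?_
    gcongr
    · norm_num
    · have := mem_range.1 hj; omega
  have h7 := sum_le_card_nsmul _ _ _ h6
  rw [card_range, nsmul_eq_mul] at h7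
  have h8 : ((l + 1 : ℕ) : ℝ) * (Fintype.card (Ord n) * 8 ^ l / √(n / 2 : ℕ)) ≤
      Fintype.card (Ord n) / 2 := by
    have h9 : ((l + 1 : ℕ) : ℝ) ≤ 2 ^ l := by exact_mod_cast Nat.lt_two_pow_self
    have h10 : (16 : ℝ) ^ l = 2 ^ l * 8 ^ l := by rw [← mul_pow]; norm_num
    rw [← mul_div_assoc, div_le_div_iff₀ hs (by norm_num)]
    calc _ = Fintype.card (Ord n) * (2 * (((l + 1 : ℕ) : ℝ) * 8 ^ l)) := by ring
      _ ≤ Fintype.card (Ord n) * (2 * (2 ^ l * 8 ^ l)) := by gcongr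
      _ ≤ _ := by rw [← h10]; gcongr
  have := mul_le_mul_of_nonneg_left (h7.trans h8) (show (0 : ℝ) ≤ l + 1 by positivity)
  linarith

theorem result : ∃ c C : ℝ, 0 < c ∧ c ≤ C ∧
    ∀ᶠ n : ℕ in atTop, c * Real.log n ≤ EL n ∧ EL n ≤ C * Real.log n := by
  refine ⟨1 / 100, 100, by norm_num, by norm_num, ?_⟩
  filter_upwards [eventually_ge_atTop 65536] with n hn
  set k := Nat.log 256 n
  have a1 : 256 ^ k ≤ n := Nat.pow_log_le_self _ (by omega)
  have a2 : n < 256 ^ (k + 1) := Nat.lt_pow_succ_log_self (by norm_num) _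
  have a3 : 2 ≤ k := Nat.le_log_of_pow_le (by norm_num) (by omega)
  have b1 : (256 : ℝ) ^ k ≤ n := by exact_mod_cast a1
  have b2 : (n : ℝ) ≤ 256 ^ (k + 1) := by exact_mod_cast a2.le
  have b3 : (2 : ℝ) ≤ k := by exact_mod_cast a3
  have hp : (0 : ℝ) < n := by exact_mod_cast (show 0 < n by omega)
  have l2 : Real.log 256 = 8 * Real.log 2 := by
    rw [show (256 : ℝ) = 2 ^ 8 by norm_num, Real.log_pow]; norm_num
  have c1 := Real.log_le_log (by positivity) b1
  have c2 := Real.log_le_log hp b2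
  rw [Real.log_pow, l2] at c1 c2
  push_cast at c2
  have d1 := Real.log_two_gt_d9
  have d2 := Real.log_two_lt_d9
  constructor
  · obtain ⟨l, hl⟩ : ∃ l, k = l + 1 := ⟨k - 1, by omega⟩
    have := EL_low (n := n) l (by omega) (by
      refine Real.le_sqrt_of_sq_le ?_
      have e : 4 * 256 ^ l ≤ n / 2 := by rw [hl, pow_succ] at a1; omega
      have e2 : (2 * (16 : ℝ) ^ l) ^ 2 = 4 * 256 ^ l := by
        rw [mul_pow, ← pow_mul, mul_comm l, pow_mul]; norm_num
      rw [e2]; exact_mod_cast e)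
    have e : (k : ℝ) = l + 1 := by exact_mod_cast hl
    nlinarith
  · have := EL_up (n := n) (72 * (k + 1)) (by
      calc (n : ℝ) ^ 9 ≤ (256 ^ (k + 1)) ^ 9 := by gcongr
        _ = _ := by
          rw [show (256 : ℝ) = 2 ^ 8 by norm_num, ← pow_mul, ← pow_mul]; congr 1; ring)
    push_cast at this
    nlinarith

end Pool.Agent.Results.MP_25bd62_pr.Theta
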